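import Mathlib

/-!
# Retracts of free Burnside groups whose exponent is not a prime power

If `n` is not a power of a prime, write `n = a * b` with `a, b > 1` coprime.  In `B(m,n)` the
endomorphism sending every free generator to `z = x ^ e`, where `x` is one fixed free generator,
`e ≡ 1 (mod a)` and `e ≡ 0 (mod b)`, is a retraction onto the cyclic group `⟨z⟩` of order `a`,
and no free Burnside group of exponent `n` has order `a`.
-/

set_option autoImplicit false

universe u v

namespace Pool.Agent.Results.MP_836feb_al.CompositeExponent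

/-- The normal subgroup `F^n` of the free group on `α` generated by all `n`-th powers. -/
def powerSubgroup (α : Type u) (n : ℕ) : Subgroup (FreeGroup α) :=
  Subgroup.normalClosure (Set.range fun w : FreeGroup α => w ^ n)

instance powerSubgroup_normal (α : Type u) (n : ℕ) : (powerSubgroup α n).Normal :=
  Subgroup.normalClosure_normal

/-- The free Burnside group `B(m,n) = F / F^n`, where the set `α` of free generators has
cardinality `m`. -/
abbrev B (α : Type u) (n : ℕ) : Type u := FreeGroup α ⧸ powerSubgroup α n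

/-- The image in `B(m,n)` of a free generator. -/
def gen {α : Type u} (n : ℕ) (i : α) : B α n := QuotientGroup.mk (FreeGroup.of i)

lemma pow_eq_one {α : Type u} {n : ℕ} (g : B α n) : g ^ n = 1 := by
  obtain ⟨w, rfl⟩ := QuotientGroup.mk_surjective g
  rw [← QuotientGroup.mk_pow, QuotientGroup.eq_one_iff]
  exact Subgroup.subset_normalClosure ⟨w, rfl⟩

/-- Universal property: a map of the generators to a group of exponent `n` extends to `B(m,n)`. -/
def liftB {α : Type u} {n : ℕ} {G : Type v} [Group G] (hG : ∀ g : G, g ^ n = 1) (f : α → G) :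
    B α n →* G :=
  QuotientGroup.lift (powerSubgroup α n) (FreeGroup.lift f) (by
    intro w hw
    have h : powerSubgroup α n ≤ (FreeGroup.lift f).ker := by
      refine Subgroup.normalClosure_le_normal ?_
      rintro _ ⟨w, rfl⟩
      change FreeGroup.lift f (w ^ n) = 1
      rw [map_pow, hG]
    exact h hw)

lemma liftB_gen {α : Type u} {n : ℕ} {G : Type v} [Group G] (hG : ∀ g : G, g ^ n = 1)
    (f : α → G) (i : α) : liftB hG f (gen n i) = f i := by
  change FreeGroup.lift f (FreeGroup.of i) = f i
  simp

/-- The homomorphism from `B(m,n)` to the cyclic group of order `n` sending all generators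
to `1`. -/
def toCyclic (α : Type u) (n : ℕ) : B α n →* Multiplicative (ZMod n) :=
  liftB (fun g => by
    rw [← ofAdd_toAdd g, ← ofAdd_nsmul]
    simp) (fun _ => Multiplicative.ofAdd 1)

lemma toCyclic_gen {α : Type u} (n : ℕ) (i : α) :
    toCyclic α n (gen n i) = Multiplicative.ofAdd 1 := liftB_gen _ _ _

/-- A power of a free generator is trivial only if the exponent is divisible by `n`. -/
lemma dvd_of_gen_pow {α : Type u} {n : ℕ} (i : α) (k : ℕ) (h : gen n i ^ k = 1) : n ∣ k := by
  have h1 := congrArg (toCyclic α n) h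
  rw [map_pow, map_one, toCyclic_gen, ← ofAdd_nsmul] at h1
  have h2 : (k • (1 : ZMod n)) = 0 := h1
  rw [nsmul_eq_mul, mul_one] at h2
  exact (ZMod.natCast_eq_zero_iff k n).mp h2

/-- If `n > 1` is not a power of a prime then for every non-empty set `α` of free generators
(that is, for every rank `m ≥ 1`) the group `B(m,n)` has a retract `H` that is not isomorphic to
a free Burnside group `B(k,n)` of any rank `k`. -/
lemma exists_retract (n : ℕ) (hn : 1 < n) (hpp : ¬ IsPrimePow n) (α : Type u) [Nonempty α] :
    ∃ (H : Subgroup (B α n)) (ρ : B α n →* H), (∀ h : H, ρ (h : B α n) = h) ∧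
      ∀ β : Type v, IsEmpty (H ≃* B β n) := by
  obtain ⟨i⟩ := ‹Nonempty α›
  -- the factorisation `n = a * b`
  have hn0 : n ≠ 0 := by omega
  set p := n.minFac with hp
  have hpr : p.Prime := Nat.minFac_prime (by omega)
  obtain ⟨a, b, hab, hcop, ha, hb⟩ : ∃ a b : ℕ, a * b = n ∧ Nat.Coprime a b ∧ 1 < a ∧ 1 < b := by
    refine ⟨p ^ n.factorization p, n / p ^ n.factorization p, Nat.ordProj_mul_ordCompl_eq_self n p,
      ?_, ?_, ?_⟩
    · exact Nat.Coprime.pow_left _ (Nat.coprime_ordCompl hpr hn0)
    · apply Nat.one_lt_pow _ hpr.one_lt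
      have := (hpr.dvd_iff_one_le_factorization hn0).mp (Nat.minFac_dvd n)
      omega
    · have hpos : 0 < n / p ^ n.factorization p := Nat.ordCompl_pos p hn0
      by_contra hle
      have h1 : n / p ^ n.factorization p = 1 := by omega
      have h2 := Nat.ordProj_mul_ordCompl_eq_self n p
      rw [h1, mul_one] at h2
      apply hpp
      rw [isPrimePow_nat_iff]
      refine ⟨p, n.factorization p, hpr, ?_, h2⟩
      have := (hpr.dvd_iff_one_le_factorization hn0).mp (Nat.minFac_dvd n)
      omega
  -- the idempotent exponent `e`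
  obtain ⟨e, he1, he2⟩ := Nat.chineseRemainder hcop 1 0
  have hbe : b ∣ e := (Nat.modEq_zero_iff_dvd).mp he2
  have hnae : n ∣ e * a := by
    rw [← hab, mul_comm a b]
    exact Nat.mul_dvd_mul hbe dvd_rfl
  have hee : e * e ≡ e [MOD n] := by
    rw [← hab]
    refine (Nat.modEq_and_modEq_iff_modEq_mul hcop).mp ⟨?_, ?_⟩
    · calc e * e ≡ 1 * e [MOD a] := he1.mul_right e
        _ = e := one_mul e
    · exact ((he2.mul_right e).trans (by rw [zero_mul])).trans he2.symm
  set x : B α n := gen n i with hx
  have hxn : x ^ n = 1 := pow_eq_one x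
  have hzz : (x ^ e) ^ e = x ^ e := by
    rw [← pow_mul]
    exact (pow_eq_pow_iff_modEq (x := x)).mpr (hee.of_dvd (orderOf_dvd_of_pow_eq_one hxn))
  -- the retraction
  let φ : B α n →* B α n := liftB pow_eq_one (fun _ => x ^ e)
  have hφx : φ x = x ^ e := liftB_gen _ _ _
  have hφφ : ∀ g : B α n, φ (φ g) = φ g := by
    intro g
    have h1 : φ.comp φ = φ := by
      apply QuotientGroup.monoidHom_ext
      apply FreeGroup.ext_hom
      intro j
      change φ (φ (gen n j)) = φ (gen n j)
      have h2 : φ (gen n j) = x ^ e := liftB_gen _ _ _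
      rw [h2, map_pow, hφx, hzz]
    exact DFunLike.congr_fun h1 g
  have hker : ∀ g : B α n, (φ g) ^ a = 1 := by
    intro g
    have h2 : ∀ w : FreeGroup α, ∃ k : ℤ, φ (QuotientGroup.mk w) = (x ^ e) ^ k := by
      intro w
      induction w using FreeGroup.induction_on with
      | C1 => exact ⟨0, by rw [QuotientGroup.mk_one, map_one, zpow_zero]⟩
      | of j => exact ⟨1, by rw [zpow_one]; exact liftB_gen _ _ _⟩
      | inv_of j hj =>
        obtain ⟨k, hk⟩ := hj
        exact ⟨-k, by rw [QuotientGroup.mk_inv, map_inv, hk, zpow_neg]⟩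
      | mul w w' hw hw' =>
        obtain ⟨k, hk⟩ := hw
        obtain ⟨l, hl⟩ := hw'
        exact ⟨k + l, by rw [QuotientGroup.mk_mul, map_mul, hk, hl, zpow_add]⟩
    obtain ⟨w, rfl⟩ := QuotientGroup.mk_surjective g
    obtain ⟨k, hk⟩ := h2 w
    have h3 : (x ^ e) ^ a = 1 := by
      rw [← pow_mul]
      obtain ⟨c, hc⟩ := hnae
      rw [hc, pow_mul, hxn, one_pow]
    rw [hk, ← zpow_natCast, ← zpow_mul, mul_comm k, zpow_mul, zpow_natCast, h3, one_zpow]
  refine ⟨φ.range, φ.rangeRestrict, ?_, ?_⟩
  · rintro ⟨_, g, rfl⟩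
    apply Subtype.ext
    exact hφφ g
  · intro β
    refine ⟨fun f => ?_⟩
    -- every element of the retract satisfies `h ^ a = 1`
    have hH : ∀ h : φ.range, h ^ a = 1 := by
      rintro ⟨_, g, rfl⟩
      apply Subtype.ext
      exact hker g
    rcases isEmpty_or_nonempty β with hβ | ⟨⟨j⟩⟩
    · -- rank `0`: the retract would be trivial
      have hsub : Subsingleton (B β n) := by
        have : Subsingleton (FreeGroup β) := inferInstance
        exact (QuotientGroup.mk_surjective (s := powerSubgroup β n)).subsingleton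
      have h1 : (⟨φ x, x, rfl⟩ : φ.range) = 1 := f.injective (Subsingleton.elim _ _)
      have h2 : x ^ e = 1 := by
        rw [← hφx]
        exact congrArg Subtype.val h1
      have h3 : n ∣ e := dvd_of_gen_pow i e h2
      have h4 : a ∣ e := (Dvd.intro b hab).trans h3
      have h5 : (1 : ℕ) ≡ 0 [MOD a] := he1.symm.trans ((Nat.modEq_zero_iff_dvd).mpr h4)
      have h6 : a ∣ 1 := (Nat.modEq_zero_iff_dvd).mp h5
      have h7 := Nat.le_of_dvd one_pos h6
      omega
    · -- positive rank: a free generator has order `n > a`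
      have h1 : (gen n j : B β n) ^ a = 1 := by
        have h2 := hH (f.symm (gen n j))
        rw [← map_pow] at h2
        have h3 := congrArg f h2
        rwa [f.apply_symm_apply, map_one] at h3
      have h2 := Nat.le_of_dvd (by omega) (dvd_of_gen_pow j a h1)
      have h3 : a * 1 < a * b := Nat.mul_lt_mul_of_pos_left hb (by omega)
      omega

/-- The assertion of Q1: for all sufficiently large odd `n` every retract of a free Burnside group
`B(m,n)` of rank `m ≥ 1` is isomorphic to a free Burnside group `B(k,n)`. -/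
def Q1 : Prop :=
  ∃ N : ℕ, ∀ n : ℕ, N ≤ n → Odd n → ∀ (α : Type u) [Nonempty α] (H : Subgroup (B α n))
    (ρ : B α n →* H), (∀ h : H, ρ (h : B α n) = h) → ∃ β : Type v, Nonempty (H ≃* B β n)

/-- For every `n > 1` that is not a power of a prime and every rank `m ≥ 1`, the free Burnside
group `B(m,n)` has a retract that is not isomorphic to `B(k,n)` for any cardinal `k`.  Since there
are infinitely many odd such `n`, the answer to Q1 is negative. -/
theorem result :
    (∀ n : ℕ, 1 < n → ¬ IsPrimePow n → ∀ (α : Type u) [Nonempty α],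
      ∃ (H : Subgroup (B α n)) (ρ : B α n →* H), (∀ h : H, ρ (h : B α n) = h) ∧
        ∀ β : Type v, IsEmpty (H ≃* B β n)) ∧
    ¬ Q1.{u, v} := by
  refine ⟨fun n hn hpp α _ => exists_retract n hn hpp α, ?_⟩
  rintro ⟨N, hN⟩
  -- the odd number `3 ^ (N + 1) * 5`
  have hodd : Odd (3 ^ (N + 1) * 5) := Odd.mul (Odd.pow (by decide)) (by decide)
  have hlt : N < 3 ^ (N + 1) := lt_trans (Nat.lt_succ_self N) (Nat.lt_pow_self (by norm_num))
  have hpp : ¬ IsPrimePow (3 ^ (N + 1) * 5) := by
    intro h
    rw [isPrimePow_nat_iff] at h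
    obtain ⟨p, k, hp, hk, h⟩ := h
    have h3 : 3 ∣ p ^ k := by
      rw [h]
      exact (dvd_pow_self 3 (by omega)).mul_right 5
    have h5 : 5 ∣ p ^ k := by
      rw [h]
      exact Dvd.intro_left _ rfl
    have h3' : (3 : ℕ) = p := (Nat.prime_dvd_prime_iff_eq (by norm_num) hp).mp
      ((by norm_num : Nat.Prime 3).dvd_of_dvd_pow h3)
    have h5' : (5 : ℕ) = p := (Nat.prime_dvd_prime_iff_eq (by norm_num) hp).mp
      ((by norm_num : Nat.Prime 5).dvd_of_dvd_pow h5)
    omega
  obtain ⟨H, ρ, hρ, hH⟩ := exists_retract.{u, v} (3 ^ (N + 1) * 5) (by omega) hpp (ULift.{u} Unit)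
  obtain ⟨β, ⟨f⟩⟩ := hN (3 ^ (N + 1) * 5) (by omega) hodd (ULift.{u} Unit) H ρ hρ
  exact (hH β).false f

end Pool.Agent.Results.MP_836feb_al.CompositeExponent
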